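import Pool.Agent.H70.EH.Targets

/-!
# EH module DCX: the condition of an instance depends on finitely many strings
-/

set_option autoImplicit false

namespace Pool.Agent.H81.EH.DCX

open Pool.Agent.H6.NB Pool.Agent.H70.OQ Pool.Agent.H70.EH

/-- Alternating quantifiers: the predicate matters only on lists of admissible strings. -/
theorem alt_congr (R : List Bool → Prop) : ∀ (k : ℕ) (b : Bool) (P Q : List (List Bool) → Prop),
    (∀ ws, ws.length = k → (∀ w ∈ ws, R w) → (P ws ↔ Q ws)) → (Alt R b k P ↔ Alt R b k Q) := by
  intro k
  induction k with
  | zero =>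
    intro b P Q h
    have := h [] rfl (by simp)
    cases b <;> simpa [Alt] using this
  | succ k ih =>
    intro b P Q h
    have h' : ∀ w, R w → ∀ b', (Alt R b' k (fun ws => P (w :: ws)) ↔
        Alt R b' k fun ws => Q (w :: ws)) := by
      intro w hw b'
      refine ih b' _ _ fun ws hl hws => h (w :: ws) (by simp [hl]) ?_
      intro v hv
      rcases List.mem_cons.1 hv with rfl | hv
      · exact hw
      · exact hws v hv
    cases b with
    | true =>
      simp only [Alt]
      exact exists_congr fun w => and_congr_right fun hw => h' w hw false
    | false =>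
      simp only [Alt]
      exact forall_congr' fun w => forall_congr' fun hw => h' w hw true

theorem dcx (h1 : T_EVC) (h2 : T_COD) : T_DCX := by
  intro M i x
  refine ⟨M.time x.length + (2 * (slot M i x).length +
    2 * (2 * (slot M i x).length + qs (slot M i x)) + 4), ?_⟩
  intro O O' h
  have hlang : x ∈ M.lang O ↔ x ∈ M.lang O' := by
    refine alt_congr _ _ _ _ _ fun ws hl hws => ?_
    rw [h1 (M.tree x ws) (M.time x.length) O O' (M.short x ws hl hws) fun w hw => h w (by omega)]
  have hcpx : (fun u : Fin (2 * (slot M i x).length) → Bool =>
      cpx O (slot M i x) (List.ofFn u)) = fun u => cpx O' (slot M i x) (List.ofFn u) := by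
    funext u v
    unfold cpx
    apply h
    unfold pos
    rw [h2.2, List.length_append, List.length_ofFn, List.length_ofFn]
    have hb : v.1.toNat ≤ 1 := Bool.toNat_le _
    omega
  have hdec : @decide (x ∈ M.lang O) (Classical.propDecidable _) =
      @decide (x ∈ M.lang O') (Classical.propDecidable _) := by
    classical
    by_cases hx : x ∈ M.lang O
    · exact (decide_eq_true hx).trans (decide_eq_true (hlang.1 hx)).symm
    · exact (decide_eq_false hx).trans (decide_eq_false fun hx' => hx (hlang.2 hx')).symm
  unfold Okx
  rw [hcpx, hdec]

end Pool.Agent.H81.EH.DCX
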